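import Mathlib

namespace Pool.Agent.Results.MP_00ece3_co.Cubic

open Finset Classical

def o (p q u : ℝ × ℝ) : ℝ := (q.1 - p.1) * (u.2 - p.2) - (q.2 - p.2) * (u.1 - p.1)

lemma col {p q u : ℝ × ℝ} (h : p ≠ q) (ho : o p q u = 0) : Collinear ℝ {p, q, u} := by
  rw [collinear_iff_of_mem (p₀ := p) (by simp)]
  refine ⟨q - p, ?_⟩
  have hr : ∃ r : ℝ, u = r • (q - p) +ᵥ p := by
    unfold o at ho
    by_cases h1 : q.1 - p.1 = 0
    · have h2 : q.2 - p.2 ≠ 0 := fun h2 => h (Prod.ext (by linarith) (by linarith))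
      refine ⟨(u.2 - p.2) / (q.2 - p.2), Prod.ext ?_ ?_⟩
      · rw [h1] at ho
        have : u.1 - p.1 = 0 := by
          have : (q.2 - p.2) * (u.1 - p.1) = 0 := by linarith
          exact (mul_eq_zero.1 this).resolve_left h2
        simp [h1]; linarith
      · simp; field_simp; ring
    · refine ⟨(u.1 - p.1) / (q.1 - p.1), Prod.ext ?_ ?_⟩
      · simp; field_simp; ring
      · simp; field_simp; linarith
  intro x hx
  simp only [Set.mem_insert_iff, Set.mem_singleton_iff] at hx
  rcases hx with rfl | rfl | rfl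
  · exact ⟨0, by simp⟩
  · exact ⟨1, by simp⟩
  · exact hr

noncomputable def ind (A : Prop) : ℝ := if A then 1 else 0

lemma ind_nonneg (A : Prop) : 0 ≤ ind A := by unfold ind; split_ifs <;> norm_num
lemma ind_le (A : Prop) : ind A ≤ 1 := by unfold ind; split_ifs <;> norm_num
lemma ind_pos {A : Prop} (h : A) : ind A = 1 := if_pos h
lemma ind_neg {A : Prop} (h : ¬ A) : ind A = 0 := if_neg h

variable {n : ℕ} (P : Fin n → ℝ × ℝ)

noncomputable def s (p q u v : Fin n) : ℝ := ind (o (P p) (P q) (P u) * o (P p) (P q) (P v) < 0)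

lemma s_symm (p q u v : Fin n) : s P p q u v = s P q p u v := by
  unfold s
  congr 2
  unfold o; ring

/-- Among the points of `W`, many lines through `p` and a point of `W` separate `u` from another. -/
lemma tri (gen : ∀ i j l, i ≠ j → i ≠ l → j ≠ l → o (P i) (P j) (P l) ≠ 0) {p u : Fin n} (hpu : p ≠ u)
    (W : Finset (Fin n)) (hp : p ∉ W) (hu : u ∉ W) :
    (W.card : ℝ) * (W.card - 2) ≤ 4 * ∑ q ∈ W, ∑ v ∈ W, s P p q u v := by
  set x : Fin n → ℝ := fun q => ind (0 < o (P p) (P u) (P q)) with hx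
  have key : ∀ q ∈ W, ∀ v ∈ W, x q * x v + (1 - x q) * (1 - x v) - (if q = v then 1 else 0) ≤
      s P p q u v + s P p v u q := by
    intro q hq v hv
    have a0 : o (P p) (P u) (P q) ≠ 0 := gen _ _ _ hpu (fun h => hp (h ▸ hq)) (fun h => hu (h ▸ hq))
    have b0 : o (P p) (P u) (P v) ≠ 0 := gen _ _ _ hpu (fun h => hp (h ▸ hv)) (fun h => hu (h ▸ hv))
    have e1 : o (P p) (P q) (P u) = - o (P p) (P u) (P q) := by unfold o; ring
    have e2 : o (P p) (P v) (P u) = - o (P p) (P u) (P v) := by unfold o; ring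
    have e3 : o (P p) (P v) (P q) = - o (P p) (P q) (P v) := by unfold o; ring
    have n1 := ind_nonneg (o (P p) (P q) (P u) * o (P p) (P q) (P v) < 0)
    have n2 := ind_nonneg (o (P p) (P v) (P u) * o (P p) (P v) (P q) < 0)
    unfold s
    by_cases hqv : q = v
    · subst hqv
      simp only [hx, if_true]
      by_cases h : 0 < o (P p) (P u) (P q)
      · rw [ind_pos h]; linarith
      · rw [ind_neg h]; linarith
    have c0 : o (P p) (P q) (P v) ≠ 0 := gen _ _ _ (fun h => hp (h ▸ hq)) (fun h => hp (h ▸ hv)) hqv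
    simp only [hx, if_neg hqv]
    rcases lt_or_gt_of_ne a0 with a | a <;> rcases lt_or_gt_of_ne b0 with b | b
    · rw [ind_neg a.not_gt, ind_neg b.not_gt]
      rcases lt_or_gt_of_ne c0 with c | c
      · rw [ind_pos (A := o (P p) (P q) (P u) * o (P p) (P q) (P v) < 0) (by rw [e1]; nlinarith)]
        linarith
      · rw [ind_pos (A := o (P p) (P v) (P u) * o (P p) (P v) (P q) < 0) (by rw [e2, e3]; nlinarith)]
        linarith
    · rw [ind_neg a.not_gt, ind_pos b]; linarith
    · rw [ind_pos a, ind_neg b.not_gt]; linarith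
    · rw [ind_pos a, ind_pos b]
      rcases lt_or_gt_of_ne c0 with c | c
      · rw [ind_pos (A := o (P p) (P v) (P u) * o (P p) (P v) (P q) < 0) (by rw [e2, e3]; nlinarith)]
        linarith
      · rw [ind_pos (A := o (P p) (P q) (P u) * o (P p) (P q) (P v) < 0) (by rw [e1]; nlinarith)]
        linarith
  have h1 := sum_le_sum fun q hq => sum_le_sum fun v hv => key q hq v hv
  have h2 : ∑ q ∈ W, ∑ v ∈ W, (s P p q u v + s P p v u q) = 2 * ∑ q ∈ W, ∑ v ∈ W, s P p q u v := by
    simp only [sum_add_distrib]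
    rw [sum_comm (f := fun q v => s P p v u q)]; ring
  have h3 : ∑ q ∈ W, ∑ v ∈ W, (x q * x v + (1 - x q) * (1 - x v) - (if q = v then 1 else 0)) =
      (∑ q ∈ W, x q) ^ 2 + (W.card - ∑ q ∈ W, x q) ^ 2 - W.card := by
    have a : (W.card : ℝ) - ∑ q ∈ W, x q = ∑ q ∈ W, (1 - x q) := by simp [sum_sub_distrib]
    have b : ∑ q ∈ W, ∑ v ∈ W, (if q = v then (1 : ℝ) else 0) = W.card := by
      rw [sum_congr rfl (g := fun _ => 1) fun q hq => by simp [hq]]; simp
    rw [a, sq, sq, sum_mul_sum, sum_mul_sum]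
    simp only [sum_sub_distrib, sum_add_distrib, b]
  rw [h2, h3] at h1
  nlinarith [sq_nonneg (2 * ∑ q ∈ W, x q - W.card)]

variable (G : SimpleGraph (Fin n))

noncomputable def a (u v : Fin n) : ℝ := ind (G.Adj u v)

lemma sum_a (u : Fin n) (f : Fin n → ℝ) : ∑ v, a G u v * f v = ∑ v ∈ G.neighborFinset u, f v := by
  rw [SimpleGraph.neighborFinset_eq_filter, sum_filter]
  exact sum_congr rfl fun v _ => by unfold a ind; split_ifs <;> simp

lemma deg (u : Fin n) : ∑ v, a G u v = G.degree u := by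
  simpa using sum_a G u fun _ => 1

lemma vert (gen : ∀ i j l, i ≠ j → i ≠ l → j ≠ l → o (P i) (P j) (P l) ≠ 0) (u : Fin n) :
    2 * ((n : ℝ) - 1 - G.degree u) * (G.degree u * (G.degree u - 2)) +
      G.degree u * ((G.degree u - 1) * (G.degree u - 3)) ≤
        4 * ∑ p, ∑ q, ∑ v, a G u v * s P p q u v := by
  set N := G.neighborFinset u with hN
  set d : ℝ := (G.degree u : ℝ) with hd
  set T : Fin n → ℝ := fun p => ∑ q ∈ N, ∑ v ∈ N, s P p q u v with hT
  have sn : ∀ p q u v, 0 ≤ s P p q u v := fun _ _ _ _ => ind_nonneg _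
  have h1 : ∑ p, (2 - a G u p) * T p ≤ ∑ p, ∑ q, ∑ v, a G u v * s P p q u v := by
    set Y : Fin n → Fin n → ℝ := fun p q => ∑ v ∈ N, s P p q u v with hY
    have Yn : ∀ p q, 0 ≤ Y p q := fun p q => sum_nonneg fun _ _ => sn _ _ _ _
    have Ys : ∀ p q, Y p q = Y q p := fun p q => sum_congr rfl fun v _ => s_symm P _ _ _ _
    have e1 : ∀ p, T p = ∑ q, a G u q * Y p q := fun p => (sum_a G u _).symm
    have e2 : ∑ p, (1 - a G u p) * T p = ∑ p, ∑ q, (1 - a G u q) * (a G u p * Y p q) := by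
      simp only [e1, mul_sum]
      rw [sum_comm]
      exact sum_congr rfl fun p _ => sum_congr rfl fun q _ => by rw [Ys]
    have e3 : ∑ p, (2 - a G u p) * T p = ∑ p, T p + ∑ p, (1 - a G u p) * T p := by
      rw [← sum_add_distrib]; exact sum_congr rfl fun p _ => by ring
    rw [e3, e2]
    simp only [e1, sum_a G u (fun v => s P _ _ u v), ← sum_add_distrib]
    refine sum_le_sum fun p _ => sum_le_sum fun q _ => ?_
    have k1 := ind_nonneg (G.Adj u q)
    have k2 := ind_le (G.Adj u q)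
    have k3 := ind_le (G.Adj u p)
    have k4 := Yn p q
    change a G u q * Y p q + (1 - a G u q) * (a G u p * Y p q) ≤ Y p q
    unfold a
    nlinarith [mul_nonneg (mul_nonneg (sub_nonneg.2 k2) (sub_nonneg.2 k3)) k4]
  have h2 : ∀ p, 2 * (1 - a G u p - if p = u then 1 else 0) * (d * (d - 2)) +
      a G u p * ((d - 1) * (d - 3)) ≤ 4 * ((2 - a G u p) * T p) := by
    intro p
    have Tn : 0 ≤ T p := sum_nonneg fun _ _ => sum_nonneg fun _ _ => sn _ _ _ _
    by_cases hp : p = u
    · subst hp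
      have : a G p p = 0 := ind_neg G.irrefl
      rw [this]; simp; linarith
    rw [if_neg hp]
    have hu : u ∉ N := by simp [hN]
    by_cases hA : G.Adj u p
    · have hm : p ∈ N := by simpa [hN] using hA
      have k := tri P gen hp (N.erase p) (by simp) (fun h => hu (mem_of_mem_erase h))
      have k2 : ∑ q ∈ N.erase p, ∑ v ∈ N.erase p, s P p q u v ≤ T p :=
        (sum_le_sum fun q _ => sum_le_sum_of_subset_of_nonneg (erase_subset _ _)
          fun _ _ _ => sn _ _ _ _).trans (sum_le_sum_of_subset_of_nonneg (erase_subset _ _)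
            fun _ _ _ => sum_nonneg fun _ _ => sn _ _ _ _)
      have k3 : ((N.erase p).card : ℝ) = d - 1 := by
        rw [card_erase_of_mem hm, Nat.cast_sub (card_pos.2 ⟨p, hm⟩)]; simp [hN, hd]
      rw [k3] at k
      have : a G u p = 1 := ind_pos hA
      rw [this]; nlinarith
    · have k := tri P gen hp N (by simpa [hN] using hA) hu
      have k3 : (N.card : ℝ) = d := by simp [hN, hd]
      rw [k3] at k
      have : a G u p = 0 := ind_neg hA
      rw [this]
      change _ ≤ 4 * T p at k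
      nlinarith
  have h3 := sum_le_sum fun p (_ : p ∈ univ) => h2 p
  simp only [sum_add_distrib, ← sum_mul, ← mul_sum, sum_sub_distrib, deg] at h3
  simp only [sum_const, card_univ, Fintype.card_fin, nsmul_eq_mul, mul_one, sum_ite_eq', mem_univ,
    if_true] at h3
  nlinarith


lemma col' {p q u : ℝ × ℝ} (h : Collinear ℝ {p, q, u}) : o p q u = 0 := by
  rw [collinear_iff_of_mem (p₀ := p) (by simp)] at h
  obtain ⟨v, hv⟩ := h
  obtain ⟨r, hr⟩ := hv q (by simp)
  obtain ⟨t, ht⟩ := hv u (by simp)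
  rw [hr, ht]; simp [o]; ring

/-- A placement: injective, no three points collinear. -/
def Gen (P : Fin n → ℝ × ℝ) : Prop :=
  Function.Injective P ∧ ∀ i j l, i ≠ j → i ≠ l → j ≠ l → ¬ Collinear ℝ {P i, P j, P l}

/-- The line through the points `p, q` (both different from `u, v`) meets the segment `u v`. -/
def Sep (P : Fin n → ℝ × ℝ) (p q u v : Fin n) : Prop :=
  p ≠ u ∧ p ≠ v ∧ q ≠ u ∧ q ≠ v ∧ ∃ z ∈ segment ℝ (P u) (P v), z ∈ affineSpan ℝ {P p, P q}

/-- Sum over the edges `u v` of the number of lines `p q` that separate `u` from `v`. -/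
noncomputable def cost (G : SimpleGraph (Fin n)) (P : Fin n → ℝ × ℝ) : ℕ :=
  ∑ u, ∑ v, ∑ p, ∑ q, if u < v ∧ G.Adj u v ∧ p < q ∧ Sep P p q u v then 1 else 0

/-- Orchard crossing number. -/
noncomputable def OCN (G : SimpleGraph (Fin n)) : ℕ := sInf {c | ∃ P, Gen P ∧ cost G P = c}

/-- `G` has a crossing-free drawing with straight edges. -/
def Planar (G : SimpleGraph (Fin n)) : Prop :=
  ∃ Q : Fin n → ℝ × ℝ, Function.Injective Q ∧
    (∀ u v w, G.Adj u v → Q w ∈ segment ℝ (Q u) (Q v) → w = u ∨ w = v) ∧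
    ∀ u v x y, G.Adj u v → G.Adj x y → s(u, v) ≠ s(x, y) →
      ∀ z ∈ segment ℝ (Q u) (Q v), z ∈ segment ℝ (Q x) (Q y) → ∃ w, z = Q w

lemma gen_o {P : Fin n → ℝ × ℝ} (h : Gen P) :
    ∀ i j l, i ≠ j → i ≠ l → j ≠ l → o (P i) (P j) (P l) ≠ 0 :=
  fun i j l h1 h2 h3 k => h.2 i j l h1 h2 h3 (col (h.1.ne h1) k)

lemma sep_iff {P : Fin n → ℝ × ℝ} (h : Gen P) {p q : Fin n} (hpq : p ≠ q) (u v : Fin n) :
    Sep P p q u v ↔ o (P p) (P q) (P u) * o (P p) (P q) (P v) < 0 := by
  constructor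
  · rintro ⟨h1, h2, h3, h4, z, ⟨c, d, hc, hd, hcd, rfl⟩, hz⟩
    obtain ⟨t, ht⟩ := mem_affineSpan_pair_iff_exists_lineMap_eq.1 hz
    have x0 := gen_o h p q u hpq h1 h3
    have y0 := gen_o h p q v hpq h2 h4
    have e1 := congrArg Prod.fst ht
    have e2 := congrArg Prod.snd ht
    simp [AffineMap.lineMap_apply] at e1 e2
    have e : c * o (P p) (P q) (P u) + d * o (P p) (P q) (P v) = 0 := by
      have : c = 1 - d := by linarith
      subst this
      unfold o
      linear_combination (-((P q).1 - (P p).1)) * e2 + ((P q).2 - (P p).2) * e1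
    set x := o (P p) (P q) (P u)
    set y := o (P p) (P q) (P v)
    by_contra k
    have k' : 0 < x * y := lt_of_le_of_ne (not_lt.1 k) (mul_ne_zero x0 y0).symm
    have hx : 0 < x * x := mul_self_pos.2 x0
    have : c * (x * x) + d * (x * y) = 0 := by linear_combination x * e
    rcases hc.eq_or_lt with k1 | k1
    · have : d = 1 := by linarith
      subst this; rw [← k1] at this; linarith
    · nlinarith [mul_pos k1 hx, mul_nonneg hd k'.le]
  · intro h2
    have op : o (P p) (P q) (P p) = 0 := by simp [o]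
    have oq : o (P p) (P q) (P q) = 0 := by unfold o; ring
    refine ⟨?_, ?_, ?_, ?_, ?_⟩
    · rintro rfl; simp [op] at h2
    · rintro rfl; simp [op] at h2
    · rintro rfl; simp [oq] at h2
    · rintro rfl; simp [oq] at h2
    obtain ⟨x, hx⟩ : ∃ x, x = o (P p) (P q) (P u) := ⟨_, rfl⟩
    obtain ⟨y, hy⟩ : ∃ y, y = o (P p) (P q) (P v) := ⟨_, rfl⟩
    rw [← hx, ← hy] at h2
    have hxy : x - y ≠ 0 := fun h => by
      have : x = y := by linarith
      rw [this] at h2; nlinarith [sq_nonneg y]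
    have hsq : 0 < (x - y) ^ 2 := by positivity
    refine ⟨(-y / (x - y)) • P u + (x / (x - y)) • P v, ⟨_, _, ?_, ?_, by field_simp; ring, rfl⟩, ?_⟩
    · rw [show -y / (x - y) = (-y * (x - y)) / (x - y) ^ 2 by field_simp]
      exact div_nonneg (by nlinarith [sq_nonneg y]) hsq.le
    · rw [show x / (x - y) = (x * (x - y)) / (x - y) ^ 2 by field_simp]
      exact div_nonneg (by nlinarith [sq_nonneg x]) hsq.le
    · have k : o (P p) (P q) ((-y / (x - y)) • P u + (x / (x - y)) • P v) = 0 := by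
        unfold o at hx hy ⊢
        simp only [Prod.fst_add, Prod.snd_add, Prod.smul_fst, Prod.smul_snd, smul_eq_mul]
        field_simp
        linear_combination y * hx - x * hy
      exact (col (h.1.ne hpq) k).mem_affineSpan_of_mem_of_ne (by simp) (by simp) (by simp) (h.1.ne hpq)

lemma half (f : Fin n → Fin n → ℝ) (hs : ∀ u v, f u v = f v u) (h0 : ∀ u, f u u = 0) :
    ∑ u, ∑ v, f u v = 2 * ∑ u, ∑ v, if u < v then f u v else 0 := by
  have : ∀ u v, f u v = (if u < v then f u v else 0) + (if v < u then f v u else 0) := by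
    intro u v
    rcases lt_trichotomy u v with h | h | h
    · simp [h, h.not_gt]
    · simp [h, h0]
    · simp [h, h.not_gt, hs u v]
  rw [sum_congr rfl fun u _ => sum_congr rfl fun v _ => this u v]
  simp only [sum_add_distrib]
  rw [sum_comm (f := fun u v => if v < u then f v u else 0)]; ring

lemma asym (u v : Fin n) : a G u v = a G v u := by unfold a; rw [G.adj_comm]

lemma s_symm' (p q u v : Fin n) : s P p q u v = s P p q v u := by unfold s; rw [mul_comm]

lemma cost_eq {P : Fin n → ℝ × ℝ} (h : Gen P) :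
    4 * (cost G P : ℝ) = ∑ u, ∑ v, ∑ p, ∑ q, a G u v * s P p q u v := by
  rw [half (fun u v => ∑ p, ∑ q, a G u v * s P p q u v)
    (fun u v => by simp only [asym G u v, s_symm' P _ _ u v])
    (fun u => by have : a G u u = 0 := ind_neg G.irrefl
                 simp [this])]
  unfold cost
  push_cast
  rw [show (4 : ℝ) = 2 * 2 by norm_num, mul_assoc, mul_sum]
  congr 1
  refine sum_congr rfl fun u _ => ?_
  rw [mul_sum]
  refine sum_congr rfl fun v _ => ?_
  by_cases huv : u < v
  · rw [if_pos huv, half (fun p q => a G u v * s P p q u v) (fun p q => by rw [s_symm])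
      (fun p => by have : s P p p u v = 0 := ind_neg (by simp [o])
                   simp [this])]
    congr 1
    refine sum_congr rfl fun p _ => sum_congr rfl fun q _ => ?_
    by_cases hpq : p < q
    · simp only [huv, hpq, true_and, if_true, sep_iff h hpq.ne, a, s, ind]
      by_cases h1 : G.Adj u v <;> simp [h1]
    · simp [hpq]
  · simp [huv]

/-- Points on a parabola. -/
def par (σ : Equiv.Perm (Fin n)) (i : Fin n) : ℝ × ℝ := (((σ i : ℕ) : ℝ), ((σ i : ℕ) : ℝ) ^ 2)

lemma par_ne (σ : Equiv.Perm (Fin n)) {i j : Fin n} (h : i ≠ j) :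
    ((σ i : ℕ) : ℝ) - ((σ j : ℕ) : ℝ) ≠ 0 := fun k => by
  have : ((σ i : ℕ) : ℝ) = ((σ j : ℕ) : ℝ) := by linarith
  exact h (σ.injective (Fin.ext (by exact_mod_cast this)))

lemma par_gen (σ : Equiv.Perm (Fin n)) : Gen (par σ) := by
  refine ⟨fun i j h => by_contra fun k => par_ne σ k (sub_eq_zero.2 (congrArg Prod.fst h)), ?_⟩
  intro i j l h1 h2 h3 k
  have := col' k
  have e : o (par σ i) (par σ j) (par σ l) = (((σ j : ℕ) : ℝ) - ((σ i : ℕ) : ℝ)) *
      ((((σ l : ℕ) : ℝ) - ((σ i : ℕ) : ℝ)) * (((σ l : ℕ) : ℝ) - ((σ j : ℕ) : ℝ))) := by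
    simp only [o, par]; ring
  rw [e] at this
  exact mul_ne_zero (par_ne σ h1.symm) (mul_ne_zero (par_ne σ h2.symm) (par_ne σ h3.symm)) this

/-- The graph `K_{2,n-2}`. -/
def K2 (n : ℕ) : SimpleGraph (Fin n) := SimpleGraph.fromRel fun u v => u.val < 2 ∧ 2 ≤ v.val

lemma K2_adj (u v : Fin n) : (K2 n).Adj u v ↔ (u.val < 2 ∧ 2 ≤ v.val) ∨ (v.val < 2 ∧ 2 ≤ u.val) := by
  unfold K2
  rw [SimpleGraph.fromRel_adj]
  refine ⟨fun h => h.2, fun h => ⟨?_, h⟩⟩
  rintro rfl; omega

/-- The drawing. -/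
def Q (w : Fin n) : ℝ × ℝ := if w.val < 2 then (0, 1 - 2 * (w.val : ℝ)) else ((w.val : ℝ), 0)

lemma seg {h i : Fin n} (hh : h.val < 2) (hi : 2 ≤ i.val) {z : ℝ × ℝ} (hz : z ∈ segment ℝ (Q h) (Q i)) :
    ∃ c : ℝ, 0 ≤ c ∧ c ≤ 1 ∧ z = ((1 - c) * (i.val : ℝ), c * (1 - 2 * (h.val : ℝ))) := by
  obtain ⟨c, d, hc, hd, hcd, rfl⟩ := hz
  refine ⟨c, hc, by linarith, ?_⟩
  have : d = 1 - c := by linarith
  simp [Q, hh, hi.not_gt, this]

lemma hub {h : Fin n} (hh : h.val < 2) : (h.val : ℝ) = 0 ∨ (h.val : ℝ) = 1 := by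
  have : h.val = 0 ∨ h.val = 1 := by omega
  rcases this with k | k <;> simp [k]

lemma Qinj : Function.Injective (Q (n := n)) := by
  intro u v h
  unfold Q at h
  split_ifs at h with h1 h2 h2
  · have := congrArg Prod.snd h
    simp at this; exact Fin.ext this
  · have : (0 : ℝ) = v.val := congrArg Prod.fst h
    have k : v.val = 0 := by exact_mod_cast this.symm
    omega
  · have : (u.val : ℝ) = 0 := congrArg Prod.fst h
    have k : u.val = 0 := by exact_mod_cast this
    omega
  · have := congrArg Prod.fst h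
    simp at this; exact Fin.ext this

lemma planar : Planar (K2 n) := by
  have v1 : ∀ h i w : Fin n, h.val < 2 → 2 ≤ i.val → Q w ∈ segment ℝ (Q h) (Q i) → w = h ∨ w = i := by
    intro h i w hh hi hw
    obtain ⟨c, h0, h1, e⟩ := seg hh hi hw
    have i0 : (2 : ℝ) ≤ i.val := by exact_mod_cast hi
    by_cases k : w.val < 2
    · left
      apply Qinj
      have e1 := congrArg Prod.fst e
      simp only [Q, if_pos k] at e1
      have : c = 1 := by nlinarith
      rw [e, this]; simp [Q, hh]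
    · right
      apply Qinj
      have e1 := congrArg Prod.snd e
      simp only [Q, if_neg k] at e1
      have : c = 0 := by rcases hub hh with t | t <;> rw [t] at e1 <;> linarith
      rw [e, this]; simp [Q, hi.not_gt]
  have v2 : ∀ h i g j : Fin n, h.val < 2 → 2 ≤ i.val → g.val < 2 → 2 ≤ j.val → s(h, i) ≠ s(g, j) →
      ∀ z ∈ segment ℝ (Q h) (Q i), z ∈ segment ℝ (Q g) (Q j) → ∃ w : Fin n, z = Q w := by
    intro h i g j hh hi hg hj hne z h1 h2
    obtain ⟨c, c0, c1, e⟩ := seg hh hi h1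
    obtain ⟨d, d0, d1, f⟩ := seg hg hj h2
    have e1 := congrArg Prod.fst (e.symm.trans f)
    have e2 := congrArg Prod.snd (e.symm.trans f)
    simp only at e1 e2
    by_cases k : h = g
    · subst k
      have cd : c = d := by rcases hub hh with t | t <;> rw [t] at e2 <;> linarith
      subst cd
      have ij : (i.val : ℝ) - j.val ≠ 0 := fun t => hne (by
        have : (i.val : ℝ) = j.val := by linarith
        rw [show i = j from Fin.ext (by exact_mod_cast this)])
      have : (1 - c) * ((i.val : ℝ) - j.val) = 0 := by linarith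
      have : c = 1 := by linarith [(mul_eq_zero.1 this).resolve_right ij]
      exact ⟨h, by rw [e, this]; simp [Q, hh]⟩
    · have k' : (h.val : ℝ) ≠ g.val := fun t => k (Fin.ext (by exact_mod_cast t))
      have : c = 0 := by
        rcases hub hh with t | t <;> rcases hub hg with r | r <;> rw [t, r] at e2 k' <;>
          first | exact absurd rfl k' | linarith
      exact ⟨i, by rw [e, this]; simp [Q, hi.not_gt]⟩
  refine ⟨Q, Qinj, fun u v w h k => ?_, fun u v x y h1 h2 hne z k1 k2 => ?_⟩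
  · rcases (K2_adj u v).1 h with t | t
    · exact v1 _ _ _ t.1 t.2 k
    · exact (v1 _ _ _ t.1 t.2 (by rwa [segment_symm])).symm
  · rcases (K2_adj u v).1 h1 with t | t <;> rcases (K2_adj x y).1 h2 with r | r
    · exact v2 _ _ _ _ t.1 t.2 r.1 r.2 hne z k1 k2
    · exact v2 _ _ _ _ t.1 t.2 r.1 r.2 (by rwa [Sym2.eq_swap (a := y)]) z k1 (by rwa [segment_symm])
    · exact v2 _ _ _ _ t.1 t.2 r.1 r.2 (by rwa [Sym2.eq_swap (a := v)]) z (by rwa [segment_symm]) k2
    · exact v2 _ _ _ _ t.1 t.2 r.1 r.2 (by rwa [Sym2.eq_swap (a := v), Sym2.eq_swap (a := y)]) z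
        (by rwa [segment_symm]) (by rwa [segment_symm])

lemma lower (m : ℕ) {P : Fin (m + 2) → ℝ × ℝ} (h : Gen P) :
    (m : ℝ) * (m ^ 2 - 2 * m - 1) ≤ 4 * cost (K2 (m + 2)) P := by
  rw [cost_eq _ h]
  set G := K2 (m + 2) with hG
  set b : Fin (m + 2) → ℝ := fun u => if u.val < 2 then 1 else 0 with hb
  have sb : ∀ f : Fin (m + 2) → ℝ, ∑ u, b u * f u = f 0 + f 1 := by
    intro f
    rw [Fin.sum_univ_succ, Fin.sum_univ_succ]
    simp [hb]
  have ab : ∀ u v, a G u v = b u * a G u v + b v * a G v u := by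
    intro u v
    rw [asym G v u]
    by_cases k : G.Adj u v
    · rcases (K2_adj u v).1 k with t | t <;>
        simp only [hb, if_pos t.1, if_neg t.2.not_gt] <;> ring
    · have : a G u v = 0 := ind_neg k
      simp [this]
  have dg : ∀ u : Fin (m + 2), u.val < 2 → (G.degree u : ℝ) = m := by
    intro u hu
    rw [← deg]
    have : ∀ v, a G u v = 1 - b v * 1 := by
      intro v
      by_cases k : v.val < 2
      · have : a G u v = 0 := ind_neg fun t => by have := (K2_adj u v).1 t; omega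
        simp only [this, hb, if_pos k]; ring
      · have : a G u v = 1 := ind_pos ((K2_adj u v).2 (.inl ⟨hu, not_lt.1 k⟩))
        simp only [this, hb, if_neg k]; ring
    simp only [this, sum_sub_distrib, sb]
    simp; ring
  set T : Fin (m + 2) → Fin (m + 2) → ℝ := fun u v => ∑ p, ∑ q, a G u v * s P p q u v with hT
  have e1 : ∀ u v, T u v = b u * T u v + b v * T v u := by
    intro u v
    simp only [hT, ← mul_sum, s_symm' P _ _ v u]
    linear_combination (∑ p, ∑ q, s P p q u v) * ab u v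
  have e2 : ∑ u, ∑ v, T u v = 2 * (∑ v, T 0 v + ∑ v, T 1 v) := by
    rw [sum_congr rfl fun u _ => sum_congr rfl fun v _ => e1 u v]
    simp only [sum_add_distrib]
    rw [sum_comm (f := fun u v => b v * T v u)]
    simp only [← mul_sum, sb]; ring
  have e3 : ∀ u, ∑ v, T u v = ∑ p, ∑ q, ∑ v, a G u v * s P p q u v := fun u =>
    sum_comm.trans (sum_congr rfl fun p _ => sum_comm)
  have v0 := vert P G (gen_o h) 0
  have v1 := vert P G (gen_o h) 1
  rw [dg 0 (by simp), ← e3] at v0
  rw [dg 1 (by simp), ← e3] at v1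
  push_cast at v0 v1
  change _ ≤ ∑ u, ∑ v, T u v
  rw [e2]
  nlinarith

/-- Cubic lower bound for the orchard crossing number of a planar graph. -/
theorem result (n : ℕ) (hn : 3 ≤ n) :
    ∃ G : SimpleGraph (Fin n), Planar G ∧
      ((n : ℝ) - 2) * ((n : ℝ) ^ 2 - 6 * n + 7) ≤ 4 * (OCN G : ℝ) := by
  refine ⟨K2 n, planar, ?_⟩
  obtain ⟨m, rfl⟩ : ∃ m, n = m + 2 := ⟨n - 2, by omega⟩
  obtain ⟨P, h1, h2⟩ : ∃ P, Gen P ∧ cost (K2 (m + 2)) P = OCN (K2 (m + 2)) :=
    Nat.sInf_mem (s := {c | ∃ P, Gen P ∧ cost (K2 (m + 2)) P = c}) ⟨_, par 1, par_gen 1, rfl⟩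
  have := lower m h1
  rw [h2] at this
  push_cast
  nlinarith

end Pool.Agent.Results.MP_00ece3_co.Cubic
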