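import Mathlib

namespace Pool.Agent.Results.MP_00ece3_co.Upper

open Finset Classical

def o (p q u : ℝ × ℝ) : ℝ := (q.1 - p.1) * (u.2 - p.2) - (q.2 - p.2) * (u.1 - p.1)

lemma col {p q u : ℝ × ℝ} (h : p ≠ q) (ho : o p q u = 0) : Collinear ℝ {p, q, u} := by
  rw [collinear_iff_of_mem (p₀ := p) (by simp)]
  refine ⟨q - p, ?_⟩
  have hr : ∃ r : ℝ, u = r • (q - p) +ᵥ p := by
    unfold o at ho
    by_cases h1 : q.1 - p.1 = 0
    · have h2 : q.2 - p.2 ≠ 0 := fun h2 => h (Prod.ext (by linarith) (by linarith))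
      refine ⟨(u.2 - p.2) / (q.2 - p.2), Prod.ext ?_ ?_⟩
      · rw [h1] at ho
        have : u.1 - p.1 = 0 := by
          have : (q.2 - p.2) * (u.1 - p.1) = 0 := by linarith
          exact (mul_eq_zero.1 this).resolve_left h2
        simp [h1]; linarith
      · simp; field_simp; ring
    · refine ⟨(u.1 - p.1) / (q.1 - p.1), Prod.ext ?_ ?_⟩
      · simp; field_simp; ring
      · simp; field_simp; linarith
  intro x hx
  simp only [Set.mem_insert_iff, Set.mem_singleton_iff] at hx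
  rcases hx with rfl | rfl | rfl
  · exact ⟨0, by simp⟩
  · exact ⟨1, by simp⟩
  · exact hr

noncomputable def ind (A : Prop) : ℝ := if A then 1 else 0

lemma ind_nonneg (A : Prop) : 0 ≤ ind A := by unfold ind; split_ifs <;> norm_num
lemma ind_le (A : Prop) : ind A ≤ 1 := by unfold ind; split_ifs <;> norm_num
lemma ind_pos {A : Prop} (h : A) : ind A = 1 := if_pos h
lemma ind_neg {A : Prop} (h : ¬ A) : ind A = 0 := if_neg h

variable {n : ℕ} (P : Fin n → ℝ × ℝ)

noncomputable def s (p q u v : Fin n) : ℝ := ind (o (P p) (P q) (P u) * o (P p) (P q) (P v) < 0)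

lemma s_symm (p q u v : Fin n) : s P p q u v = s P q p u v := by
  unfold s
  congr 2
  unfold o; ring

variable (G : SimpleGraph (Fin n))

noncomputable def a (u v : Fin n) : ℝ := ind (G.Adj u v)

lemma sum_a (u : Fin n) (f : Fin n → ℝ) : ∑ v, a G u v * f v = ∑ v ∈ G.neighborFinset u, f v := by
  rw [SimpleGraph.neighborFinset_eq_filter, sum_filter]
  exact sum_congr rfl fun v _ => by unfold a ind; split_ifs <;> simp

lemma deg (u : Fin n) : ∑ v, a G u v = G.degree u := by
  simpa using sum_a G u fun _ => 1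

lemma col' {p q u : ℝ × ℝ} (h : Collinear ℝ {p, q, u}) : o p q u = 0 := by
  rw [collinear_iff_of_mem (p₀ := p) (by simp)] at h
  obtain ⟨v, hv⟩ := h
  obtain ⟨r, hr⟩ := hv q (by simp)
  obtain ⟨t, ht⟩ := hv u (by simp)
  rw [hr, ht]; simp [o]; ring

/-- A placement: injective, no three points collinear. -/
def Gen (P : Fin n → ℝ × ℝ) : Prop :=
  Function.Injective P ∧ ∀ i j l, i ≠ j → i ≠ l → j ≠ l → ¬ Collinear ℝ {P i, P j, P l}

/-- The line through the points `p, q` (both different from `u, v`) meets the segment `u v`. -/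
def Sep (P : Fin n → ℝ × ℝ) (p q u v : Fin n) : Prop :=
  p ≠ u ∧ p ≠ v ∧ q ≠ u ∧ q ≠ v ∧ ∃ z ∈ segment ℝ (P u) (P v), z ∈ affineSpan ℝ {P p, P q}

/-- Sum over the edges `u v` of the number of lines `p q` that separate `u` from `v`. -/
noncomputable def cost (G : SimpleGraph (Fin n)) (P : Fin n → ℝ × ℝ) : ℕ :=
  ∑ u, ∑ v, ∑ p, ∑ q, if u < v ∧ G.Adj u v ∧ p < q ∧ Sep P p q u v then 1 else 0

/-- Orchard crossing number. -/
noncomputable def OCN (G : SimpleGraph (Fin n)) : ℕ := sInf {c | ∃ P, Gen P ∧ cost G P = c}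

lemma gen_o {P : Fin n → ℝ × ℝ} (h : Gen P) :
    ∀ i j l, i ≠ j → i ≠ l → j ≠ l → o (P i) (P j) (P l) ≠ 0 :=
  fun i j l h1 h2 h3 k => h.2 i j l h1 h2 h3 (col (h.1.ne h1) k)

lemma sep_iff {P : Fin n → ℝ × ℝ} (h : Gen P) {p q : Fin n} (hpq : p ≠ q) (u v : Fin n) :
    Sep P p q u v ↔ o (P p) (P q) (P u) * o (P p) (P q) (P v) < 0 := by
  constructor
  · rintro ⟨h1, h2, h3, h4, z, ⟨c, d, hc, hd, hcd, rfl⟩, hz⟩
    obtain ⟨t, ht⟩ := mem_affineSpan_pair_iff_exists_lineMap_eq.1 hz
    have x0 := gen_o h p q u hpq h1 h3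
    have y0 := gen_o h p q v hpq h2 h4
    have e1 := congrArg Prod.fst ht
    have e2 := congrArg Prod.snd ht
    simp [AffineMap.lineMap_apply] at e1 e2
    have e : c * o (P p) (P q) (P u) + d * o (P p) (P q) (P v) = 0 := by
      have : c = 1 - d := by linarith
      subst this
      unfold o
      linear_combination (-((P q).1 - (P p).1)) * e2 + ((P q).2 - (P p).2) * e1
    set x := o (P p) (P q) (P u)
    set y := o (P p) (P q) (P v)
    by_contra k
    have k' : 0 < x * y := lt_of_le_of_ne (not_lt.1 k) (mul_ne_zero x0 y0).symm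
    have hx : 0 < x * x := mul_self_pos.2 x0
    have : c * (x * x) + d * (x * y) = 0 := by linear_combination x * e
    rcases hc.eq_or_lt with k1 | k1
    · have : d = 1 := by linarith
      subst this; rw [← k1] at this; linarith
    · nlinarith [mul_pos k1 hx, mul_nonneg hd k'.le]
  · intro h2
    have op : o (P p) (P q) (P p) = 0 := by simp [o]
    have oq : o (P p) (P q) (P q) = 0 := by unfold o; ring
    refine ⟨?_, ?_, ?_, ?_, ?_⟩
    · rintro rfl; simp [op] at h2
    · rintro rfl; simp [op] at h2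
    · rintro rfl; simp [oq] at h2
    · rintro rfl; simp [oq] at h2
    obtain ⟨x, hx⟩ : ∃ x, x = o (P p) (P q) (P u) := ⟨_, rfl⟩
    obtain ⟨y, hy⟩ : ∃ y, y = o (P p) (P q) (P v) := ⟨_, rfl⟩
    rw [← hx, ← hy] at h2
    have hxy : x - y ≠ 0 := fun h => by
      have : x = y := by linarith
      rw [this] at h2; nlinarith [sq_nonneg y]
    have hsq : 0 < (x - y) ^ 2 := by positivity
    refine ⟨(-y / (x - y)) • P u + (x / (x - y)) • P v, ⟨_, _, ?_, ?_, by field_simp; ring, rfl⟩, ?_⟩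
    · rw [show -y / (x - y) = (-y * (x - y)) / (x - y) ^ 2 by field_simp]
      exact div_nonneg (by nlinarith [sq_nonneg y]) hsq.le
    · rw [show x / (x - y) = (x * (x - y)) / (x - y) ^ 2 by field_simp]
      exact div_nonneg (by nlinarith [sq_nonneg x]) hsq.le
    · have k : o (P p) (P q) ((-y / (x - y)) • P u + (x / (x - y)) • P v) = 0 := by
        unfold o at hx hy ⊢
        simp only [Prod.fst_add, Prod.snd_add, Prod.smul_fst, Prod.smul_snd, smul_eq_mul]
        field_simp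
        linear_combination y * hx - x * hy
      exact (col (h.1.ne hpq) k).mem_affineSpan_of_mem_of_ne (by simp) (by simp) (by simp) (h.1.ne hpq)

lemma half (f : Fin n → Fin n → ℝ) (hs : ∀ u v, f u v = f v u) (h0 : ∀ u, f u u = 0) :
    ∑ u, ∑ v, f u v = 2 * ∑ u, ∑ v, if u < v then f u v else 0 := by
  have : ∀ u v, f u v = (if u < v then f u v else 0) + (if v < u then f v u else 0) := by
    intro u v
    rcases lt_trichotomy u v with h | h | h
    · simp [h, h.not_gt]
    · simp [h, h0]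
    · simp [h, h.not_gt, hs u v]
  rw [sum_congr rfl fun u _ => sum_congr rfl fun v _ => this u v]
  simp only [sum_add_distrib]
  rw [sum_comm (f := fun u v => if v < u then f v u else 0)]; ring

lemma asym (u v : Fin n) : a G u v = a G v u := by unfold a; rw [G.adj_comm]

lemma s_symm' (p q u v : Fin n) : s P p q u v = s P p q v u := by unfold s; rw [mul_comm]

lemma cost_eq {P : Fin n → ℝ × ℝ} (h : Gen P) :
    4 * (cost G P : ℝ) = ∑ u, ∑ v, ∑ p, ∑ q, a G u v * s P p q u v := by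
  rw [half (fun u v => ∑ p, ∑ q, a G u v * s P p q u v)
    (fun u v => by simp only [asym G u v, s_symm' P _ _ u v])
    (fun u => by have : a G u u = 0 := ind_neg G.irrefl
                 simp [this])]
  unfold cost
  push_cast
  rw [show (4 : ℝ) = 2 * 2 by norm_num, mul_assoc, mul_sum]
  congr 1
  refine sum_congr rfl fun u _ => ?_
  rw [mul_sum]
  refine sum_congr rfl fun v _ => ?_
  by_cases huv : u < v
  · rw [if_pos huv, half (fun p q => a G u v * s P p q u v) (fun p q => by rw [s_symm])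
      (fun p => by have : s P p p u v = 0 := ind_neg (by simp [o])
                   simp [this])]
    congr 1
    refine sum_congr rfl fun p _ => sum_congr rfl fun q _ => ?_
    by_cases hpq : p < q
    · simp only [huv, hpq, true_and, if_true, sep_iff h hpq.ne, a, s, ind]
      by_cases h1 : G.Adj u v <;> simp [h1]
    · simp [hpq]
  · simp [huv]

/-- Points on a parabola. -/
def par (σ : Equiv.Perm (Fin n)) (i : Fin n) : ℝ × ℝ := (((σ i : ℕ) : ℝ), ((σ i : ℕ) : ℝ) ^ 2)

lemma par_ne (σ : Equiv.Perm (Fin n)) {i j : Fin n} (h : i ≠ j) :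
    ((σ i : ℕ) : ℝ) - ((σ j : ℕ) : ℝ) ≠ 0 := fun k => by
  have : ((σ i : ℕ) : ℝ) = ((σ j : ℕ) : ℝ) := by linarith
  exact h (σ.injective (Fin.ext (by exact_mod_cast this)))

lemma par_gen (σ : Equiv.Perm (Fin n)) : Gen (par σ) := by
  refine ⟨fun i j h => by_contra fun k => par_ne σ k (sub_eq_zero.2 (congrArg Prod.fst h)), ?_⟩
  intro i j l h1 h2 h3 k
  have := col' k
  have e : o (par σ i) (par σ j) (par σ l) = (((σ j : ℕ) : ℝ) - ((σ i : ℕ) : ℝ)) *
      ((((σ l : ℕ) : ℝ) - ((σ i : ℕ) : ℝ)) * (((σ l : ℕ) : ℝ) - ((σ j : ℕ) : ℝ))) := by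
    simp only [o, par]; ring
  rw [e] at this
  exact mul_ne_zero (par_ne σ h1.symm) (mul_ne_zero (par_ne σ h2.symm) (par_ne σ h3.symm)) this

lemma three (σ : Equiv.Perm (Fin n)) (p q u v : Fin n) :
    s (par σ) p q u v + s (par σ) p u q v + s (par σ) p v u q ≤ 1 := by
  obtain ⟨A, hA⟩ : ∃ A : ℝ, A = ((σ p : ℕ) : ℝ) := ⟨_, rfl⟩
  obtain ⟨B, hB⟩ : ∃ A : ℝ, A = ((σ q : ℕ) : ℝ) := ⟨_, rfl⟩
  obtain ⟨C, hC⟩ : ∃ A : ℝ, A = ((σ u : ℕ) : ℝ) := ⟨_, rfl⟩
  obtain ⟨D, hD⟩ : ∃ A : ℝ, A = ((σ v : ℕ) : ℝ) := ⟨_, rfl⟩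
  obtain ⟨y, hy⟩ : ∃ y : ℝ, y = (C - B) * (D - A) := ⟨_, rfl⟩
  obtain ⟨z, hz⟩ : ∃ y : ℝ, y = (B - A) * (D - C) := ⟨_, rfl⟩
  have k : ∀ t w : ℝ, t ^ 2 * w < 0 → w < 0 := fun t w h => by
    by_contra k; exact absurd h (not_lt.2 (mul_nonneg (sq_nonneg t) (not_lt.1 k)))
  have e1 : o (par σ p) (par σ q) (par σ u) * o (par σ p) (par σ q) (par σ v) < 0 → (y + z) * y < 0 :=
    fun h => k (B - A) _ (by
      convert h using 1; simp only [o, par, ← hA, ← hB, ← hC, ← hD, hy, hz]; ring)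
  have e2 : o (par σ p) (par σ u) (par σ q) * o (par σ p) (par σ u) (par σ v) < 0 → -(y * z) < 0 :=
    fun h => k (C - A) _ (by
      convert h using 1; simp only [o, par, ← hA, ← hB, ← hC, ← hD, hy, hz]; ring)
  have e3 : o (par σ p) (par σ v) (par σ u) * o (par σ p) (par σ v) (par σ q) < 0 → (y + z) * z < 0 :=
    fun h => k (D - A) _ (by
      convert h using 1; simp only [o, par, ← hA, ← hB, ← hC, ← hD, hy, hz]; ring)
  unfold s ind
  split_ifs with h1 h2 h3 h3 h2 h3 h3 <;> try norm_num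
  · nlinarith [e1 h1, e2 h2, sq_nonneg y]
  · nlinarith [e1 h1, e2 h2, sq_nonneg y]
  · nlinarith [e1 h1, e3 h3, sq_nonneg (y + z)]
  · nlinarith [e3 h3, e2 h2, sq_nonneg z]

lemma avg {u v : Fin n} (huv : u ≠ v) :
    3 * ∑ σ : Equiv.Perm (Fin n), ∑ p, ∑ q, s (par σ) p q u v ≤
      (Fintype.card (Equiv.Perm (Fin n)) : ℝ) * (((n : ℝ) - 2) * (n - 3)) := by
  set F : ℝ := (Fintype.card (Equiv.Perm (Fin n)) : ℝ) with hF
  set w : Fin n → ℝ := fun p => 1 - (if p = u then 1 else 0) - (if p = v then 1 else 0) with hw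
  have sw : ∑ p, w p = n - 2 := by simp [hw, sum_sub_distrib]; ring
  have key : ∀ p q, 3 * ∑ σ : Equiv.Perm (Fin n), s (par σ) p q u v ≤
      F * (w p * w q - if p = q then w p else 0) := by
    intro p q
    have wu : w u = 0 := by simp [hw, huv]
    have wv : w v = 0 := by simp [hw, huv.symm]
    have z : ∀ p q : Fin n, p = u ∨ p = v → ∀ σ, s (par σ) p q u v = 0 := by
      rintro p q (rfl | rfl) σ <;> exact ind_neg (by simp [o])
    by_cases h1 : p = u ∨ p = v
    · have : w p = 0 := by rcases h1 with rfl | rfl <;> assumption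
      simp [z p q h1, this]
    by_cases h2 : q = u ∨ q = v
    · have : w q = 0 := by rcases h2 with rfl | rfl <;> assumption
      have k : p ≠ q := fun k => h1 (k ▸ h2)
      simp [s_symm _ p q, z q p h2, this, k]
    push Not at h1 h2
    have wp : w p = 1 := by simp [hw, h1]
    have wq : w q = 1 := by simp [hw, h2]
    by_cases h : p = q
    · subst h
      have : ∀ σ, s (par σ) p p u v = 0 := fun σ => ind_neg (by simp [o])
      simp [this, wp]
    have a1 : ∑ σ : Equiv.Perm (Fin n), s (par σ) p q u v = ∑ σ, s (par σ) p u q v := by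
      refine Fintype.sum_equiv (Equiv.mulRight (Equiv.swap q u)) _ _ fun σ => ?_
      simp [s, par, Equiv.swap_apply_of_ne_of_ne h h1.1,
        Equiv.swap_apply_of_ne_of_ne h2.2.symm huv.symm]
    have a2 : ∑ σ : Equiv.Perm (Fin n), s (par σ) p q u v = ∑ σ, s (par σ) p v u q := by
      refine Fintype.sum_equiv (Equiv.mulRight (Equiv.swap q v)) _ _ fun σ => ?_
      simp [s, par, Equiv.swap_apply_of_ne_of_ne h h1.2,
        Equiv.swap_apply_of_ne_of_ne h2.1.symm huv]
    have a3 := sum_le_sum fun σ (_ : σ ∈ univ) => three σ p q u v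
    simp only [sum_add_distrib, ← a1, ← a2, sum_const, card_univ, nsmul_eq_mul, mul_one] at a3
    rw [wp, wq, if_neg h]
    linarith
  have tot := sum_le_sum fun p (_ : p ∈ univ) => sum_le_sum fun q (_ : q ∈ univ) => key p q
  simp only [← mul_sum, sum_sub_distrib, sum_ite_eq, mem_univ, if_true, sw, ← sum_mul] at tot
  rw [sum_comm, sum_congr rfl fun p _ => sum_comm]
  linarith

lemma upper : 6 * (OCN G : ℝ) ≤ G.edgeSet.ncard * (((n : ℝ) - 2) * (n - 3)) := by
  set F : ℝ := (Fintype.card (Equiv.Perm (Fin n)) : ℝ) with hF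
  have F0 : 0 < F := by rw [hF]; exact_mod_cast Fintype.card_pos
  have h1 : ∀ σ : Equiv.Perm (Fin n), 4 * (OCN G : ℝ) ≤
      ∑ u, ∑ v, a G u v * ∑ p, ∑ q, s (par σ) p q u v := by
    intro σ
    have k : OCN G ≤ cost G (par σ) := Nat.sInf_le ⟨_, par_gen σ, rfl⟩
    have k2 : (OCN G : ℝ) ≤ cost G (par σ) := by exact_mod_cast k
    have := cost_eq G (par_gen σ)
    simp only [mul_sum]
    linarith
  have h2 := sum_le_sum fun σ (_ : σ ∈ univ) => h1 σ
  rw [sum_comm, sum_congr rfl fun u _ => sum_comm] at h2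
  simp only [← mul_sum, sum_const, card_univ, nsmul_eq_mul, ← hF] at h2
  have h3 : ∀ u v, 3 * (a G u v * ∑ σ : Equiv.Perm (Fin n), ∑ p, ∑ q, s (par σ) p q u v) ≤
      a G u v * (F * (((n : ℝ) - 2) * (n - 3))) := by
    intro u v
    by_cases h : G.Adj u v
    · have : a G u v = 1 := ind_pos h
      rw [this, one_mul, one_mul]; exact avg h.ne
    · have : a G u v = 0 := ind_neg h
      simp [this]
  have h4 := sum_le_sum fun u (_ : u ∈ univ) => sum_le_sum fun v (_ : v ∈ univ) => h3 u v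
  simp only [← mul_sum, ← sum_mul, deg] at h4
  have e2 : ∑ u, (G.degree u : ℝ) = 2 * G.edgeSet.ncard := by
    rw [← SimpleGraph.coe_edgeFinset, Set.ncard_coe_finset]
    exact_mod_cast G.sum_degrees_eq_twice_card_edges
  rw [e2] at h4
  refine le_of_mul_le_mul_left ?_ F0
  nlinarith

/-- Upper bound for the orchard crossing number in terms of the number of edges. -/
theorem result (n : ℕ) (G : SimpleGraph (Fin n)) :
    6 * (OCN G : ℝ) ≤ G.edgeSet.ncard * (((n : ℝ) - 2) * (n - 3)) := upper G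

end Pool.Agent.Results.MP_00ece3_co.Upper
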